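import Pool.Agent.H31.ST.Targets

/-!
# TEL: comparison of two chains of nested bands
-/

open Set Filter Topology

noncomputable section

namespace H31.ST.H21

/-- one level of a chain -/
structure Lev (K : ℝ) (f : ℝ → ℝ) (l h : ℝ) : Prop where
  lt : l < h
  cd : ContDiff ℝ 2 f
  xl : f l = -2
  xh : f h = 2
  pos : ∀ t ∈ Icc l h, 0 < deriv f t
  dis : ∀ t ∈ Icc l h, |deriv (deriv f) t| ≤ K * (deriv f t) ^ 2

theorem Lev.of_chain {K : ℝ} {n : ℕ} {x : ℕ → ℝ → ℝ} {l h : ℕ → ℝ} (H : IsChain K n x l h)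
    {j : ℕ} (hj : j ≤ n) : Lev K (x j) (l j) (h j) :=
  ⟨H.lt j hj, H.cd j hj, H.xl j hj, H.xh j hj, H.pos j hj, H.dis j hj⟩

namespace Lev

variable {K : ℝ} {f : ℝ → ℝ} {l h : ℝ}

theorem diff (H : Lev K f l h) : Differentiable ℝ f :=
  H.cd.differentiable (by norm_num)

theorem diff2 (H : Lev K f l h) : Differentiable ℝ (deriv f) := by
  have h1 : ContDiff ℝ (1 + 1) f := by
    have := H.cd
    rwa [show (2 : WithTop ℕ∞) = 1 + 1 by norm_num] at this
  exact ((contDiff_succ_iff_deriv.1 h1).2.2).differentiable (by norm_num)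

theorem smono (H : Lev K f l h) : StrictMonoOn f (Icc l h) := by
  refine strictMonoOn_of_deriv_pos (convex_Icc l h) H.diff.continuous.continuousOn ?_
  intro t ht
  rw [interior_Icc] at ht
  exact H.pos t (Ioo_subset_Icc_self ht)

theorem mem (H : Lev K f l h) {t : ℝ} (ht : t ∈ Icc l h) : f t ∈ Icc (-2 : ℝ) 2 := by
  have h1 := H.smono.monotoneOn (left_mem_Icc.2 H.lt.le) ht ht.1
  have h2 := H.smono.monotoneOn ht (right_mem_Icc.2 H.lt.le) ht.2
  rw [H.xl] at h1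
  rw [H.xh] at h2
  exact ⟨h1, h2⟩

theorem mem' (H : Lev K f l h) {t : ℝ} (ht : t ∈ Ioo l h) : f t ∈ Ioo (-2 : ℝ) 2 := by
  have h1 := H.smono (left_mem_Icc.2 H.lt.le) (Ioo_subset_Icc_self ht) ht.1
  have h2 := H.smono (Ioo_subset_Icc_self ht) (right_mem_Icc.2 H.lt.le) ht.2
  rw [H.xl] at h1
  rw [H.xh] at h2
  exact ⟨h1, h2⟩

/-- distortion -/
theorem dlog (H : Lev K f l h) {s t : ℝ} (hs : s ∈ Icc l h) (ht : t ∈ Icc l h) :
    |Real.log (deriv f s) - Real.log (deriv f t)| ≤ K * |f s - f t| := by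
  have key : ∀ c : ℝ, |c| ≤ 1 →
      MonotoneOn (fun r => K * f r + c * Real.log (deriv f r)) (Icc l h) := by
    intro c hc
    have hder : ∀ r ∈ Icc l h, HasDerivAt (fun r => K * f r + c * Real.log (deriv f r))
        (K * deriv f r + c * (deriv (deriv f) r / deriv f r)) r := by
      intro r hr
      exact ((H.diff r).hasDerivAt.const_mul K).add
        ((((H.diff2 r).hasDerivAt).log (H.pos r hr).ne').const_mul c)
    refine monotoneOn_of_deriv_nonneg (convex_Icc l h) ?_ ?_ ?_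
    · exact fun r hr => (hder r hr).continuousAt.continuousWithinAt
    · intro r hr
      rw [interior_Icc] at hr
      exact (hder r (Ioo_subset_Icc_self hr)).differentiableAt.differentiableWithinAt
    · intro r hr
      rw [interior_Icc] at hr
      have hr' := Ioo_subset_Icc_self hr
      rw [(hder r hr').deriv]
      have h1 := H.pos r hr'
      have h2 := H.dis r hr'
      have h3 : |c * (deriv (deriv f) r / deriv f r)| ≤ K * deriv f r := by
        rw [abs_mul, abs_div, abs_of_pos h1]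
        calc |c| * (|deriv (deriv f) r| / deriv f r) ≤ 1 * (|deriv (deriv f) r| / deriv f r) :=
              mul_le_mul_of_nonneg_right hc (by positivity)
          _ ≤ K * deriv f r := by
              rw [one_mul, div_le_iff₀ h1]
              nlinarith
      have h4 := neg_abs_le (c * (deriv (deriv f) r / deriv f r))
      linarith
  have main : ∀ s t : ℝ, s ∈ Icc l h → t ∈ Icc l h → s ≤ t →
      |Real.log (deriv f s) - Real.log (deriv f t)| ≤ K * |f s - f t| := by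
    intro s t hs ht hst
    have h1 := key 1 (by norm_num) hs ht hst
    have h2 := key (-1) (by norm_num) hs ht hst
    have h3 : f s ≤ f t := H.smono.monotoneOn hs ht hst
    simp only at h1 h2
    rw [abs_sub_comm (f s), abs_of_nonneg (by linarith : 0 ≤ f t - f s), abs_le]
    constructor <;> nlinarith
  rcases le_total s t with h1 | h1
  · exact main s t hs ht h1
  · rw [abs_sub_comm, abs_sub_comm (f s)]
    exact main t s ht hs h1

theorem dbound (hK : 0 ≤ K) (H : Lev K f l h) {t : ℝ} (ht : t ∈ Icc l h) :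
    Real.exp (-(4 * K)) * (4 / (h - l)) ≤ deriv f t ∧
      deriv f t ≤ Real.exp (4 * K) * (4 / (h - l)) := by
  obtain ⟨ξ, hξ, hξ'⟩ := exists_deriv_eq_slope f H.lt H.diff.continuous.continuousOn
    H.diff.differentiableOn
  rw [H.xl, H.xh] at hξ'
  have hL : 0 < h - l := sub_pos.2 H.lt
  have hξ4 : deriv f ξ = 4 / (h - l) := by rw [hξ']; norm_num
  have h1 := H.dlog ht (Ioo_subset_Icc_self hξ)
  have h2 := H.mem ht
  have h3 := H.mem (Ioo_subset_Icc_self hξ)
  have h4 : |f t - f ξ| ≤ 4 := by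
    rw [abs_le]; constructor <;> linarith [h2.1, h2.2, h3.1, h3.2]
  have h5 : |Real.log (deriv f t) - Real.log (4 / (h - l))| ≤ 4 * K := by
    rw [← hξ4]
    refine h1.trans ?_
    nlinarith
  rw [abs_le] at h5
  have h6 : 0 < 4 / (h - l) := by positivity
  have h7 := H.pos t ht
  constructor
  · rw [← Real.log_le_log_iff (by positivity) h7, Real.log_mul (Real.exp_pos _).ne' h6.ne',
      Real.log_exp]
    linarith
  · rw [← Real.log_le_log_iff h7 (by positivity), Real.log_mul (Real.exp_pos _).ne' h6.ne',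
      Real.log_exp]
    linarith

theorem lips (hK : 0 ≤ K) (H : Lev K f l h) {s t : ℝ} (hs : s ∈ Icc l h) (ht : t ∈ Icc l h) :
    |f s - f t| ≤ Real.exp (4 * K) * (4 / (h - l)) * |s - t| ∧
      |s - t| ≤ Real.exp (4 * K) * ((h - l) / 4) * |f s - f t| := by
  have main : ∀ s t : ℝ, s ∈ Icc l h → t ∈ Icc l h → s < t →
      |f s - f t| ≤ Real.exp (4 * K) * (4 / (h - l)) * |s - t| ∧
      |s - t| ≤ Real.exp (4 * K) * ((h - l) / 4) * |f s - f t| := by
    intro s t hs ht hst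
    obtain ⟨ξ, hξ, hξ'⟩ := exists_deriv_eq_slope f hst H.diff.continuous.continuousOn
      H.diff.differentiableOn
    have hξm : ξ ∈ Icc l h := ⟨hs.1.trans hξ.1.le, hξ.2.le.trans ht.2⟩
    obtain ⟨h1, h2⟩ := H.dbound hK hξm
    have h3 : f t - f s = deriv f ξ * (t - s) := by
      rw [hξ']
      field_simp [(sub_pos.2 hst).ne']
    have hts : 0 < t - s := sub_pos.2 hst
    have hL : 0 < h - l := sub_pos.2 H.lt
    have h4 : |f s - f t| = deriv f ξ * (t - s) := by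
      rw [abs_sub_comm, h3, abs_of_pos (mul_pos (H.pos ξ hξm) hts)]
    rw [h4, abs_sub_comm s, abs_of_pos hts]
    refine ⟨mul_le_mul_of_nonneg_right h2 hts.le, ?_⟩
    have h5 : Real.exp (4 * K) * ((h - l) / 4) * (Real.exp (-(4 * K)) * (4 / (h - l))) = 1 := by
      rw [Real.exp_neg]
      field_simp
    calc t - s = 1 * (t - s) := (one_mul _).symm
      _ = Real.exp (4 * K) * ((h - l) / 4) * (Real.exp (-(4 * K)) * (4 / (h - l))) * (t - s) := by
          rw [h5]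
      _ ≤ Real.exp (4 * K) * ((h - l) / 4) * (deriv f ξ) * (t - s) := by gcongr
      _ = _ := by ring
  rcases lt_trichotomy s t with h1 | h1 | h1
  · exact main s t hs ht h1
  · subst h1
    simp
  · rw [abs_sub_comm (f s), abs_sub_comm s]
    exact main t s ht hs h1

/-- the inverse function -/
theorem exists_inv (hK : 0 ≤ K) (H : Lev K f l h) : ∃ g : ℝ → ℝ,
    (∀ v ∈ Icc (-2 : ℝ) 2, g v ∈ Icc l h ∧ f (g v) = v) ∧
    (∀ v ∈ Ioo (-2 : ℝ) 2, g v ∈ Ioo l h) ∧
    ∀ v ∈ Ioo (-2 : ℝ) 2, HasDerivAt g (deriv f (g v))⁻¹ v := by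
  have h1 : ∀ v : ℝ, ∃ t, v ∈ Icc (-2 : ℝ) 2 → t ∈ Icc l h ∧ f t = v := by
    intro v
    by_cases hv : v ∈ Icc (-2 : ℝ) 2
    · have := intermediate_value_Icc H.lt.le H.diff.continuous.continuousOn
      rw [H.xl, H.xh] at this
      obtain ⟨t, ht, ht'⟩ := this hv
      exact ⟨t, fun _ => ⟨ht, ht'⟩⟩
    · exact ⟨0, fun h => absurd h hv⟩
  choose g hg using h1
  have hgo : ∀ v ∈ Ioo (-2 : ℝ) 2, g v ∈ Ioo l h := by
    intro v hv
    obtain ⟨h2, h3⟩ := hg v (Ioo_subset_Icc_self hv)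
    refine ⟨lt_of_le_of_ne h2.1 ?_, lt_of_le_of_ne h2.2 ?_⟩
    · intro h4
      rw [← h4, H.xl] at h3
      linarith [hv.1]
    · intro h4
      rw [h4, H.xh] at h3
      linarith [hv.2]
  refine ⟨g, hg, hgo, ?_⟩
  intro v hv
  have hnhds : Ioo (-2 : ℝ) 2 ∈ 𝓝 v := isOpen_Ioo.mem_nhds hv
  have hcont : ContinuousAt g v := by
    have hL : 0 < h - l := sub_pos.2 H.lt
    rw [Metric.continuousAt_iff]
    intro ε hε
    obtain ⟨δ, hδ, hδ'⟩ := Metric.mem_nhds_iff.1 hnhds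
    refine ⟨min δ (ε / (Real.exp (4 * K) * ((h - l) / 4) + 1)), by positivity, ?_⟩
    intro w hw
    have hw1 : w ∈ Ioo (-2 : ℝ) 2 := hδ' (Metric.mem_ball.2 (hw.trans_le (min_le_left _ _)))
    have hw2 := hw.trans_le (min_le_right _ _)
    rw [Real.dist_eq] at hw2 ⊢
    have h2 := (H.lips hK (hg w (Ioo_subset_Icc_self hw1)).1 (hg v (Ioo_subset_Icc_self hv)).1).2
    rw [(hg w (Ioo_subset_Icc_self hw1)).2, (hg v (Ioo_subset_Icc_self hv)).2] at h2
    have hc : 0 < Real.exp (4 * K) * ((h - l) / 4) := by positivity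
    calc |g w - g v| ≤ Real.exp (4 * K) * ((h - l) / 4) * |w - v| := h2
      _ ≤ (Real.exp (4 * K) * ((h - l) / 4) + 1) * |w - v| := by
          have := abs_nonneg (w - v)
          nlinarith
      _ < (Real.exp (4 * K) * ((h - l) / 4) + 1) *
          (ε / (Real.exp (4 * K) * ((h - l) / 4) + 1)) := by gcongr
      _ = ε := by field_simp
  refine HasDerivAt.of_local_left_inverse hcont (H.diff _).hasDerivAt
    (H.pos _ (hg v (Ioo_subset_Icc_self hv)).1).ne' ?_
  filter_upwards [hnhds] with w hw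
  exact (hg w (Ioo_subset_Icc_self hw)).2

end Lev

theorem abs_sub_le_log {M a b : ℝ} (ha : 0 < a) (hb : 0 < b) (haM : a ≤ M) (hbM : b ≤ M) :
    |a - b| ≤ M * |Real.log a - Real.log b| := by
  have main : ∀ a b : ℝ, 0 < a → 0 < b → a ≤ M → b ≤ a →
      |a - b| ≤ M * |Real.log a - Real.log b| := by
    intro a b ha hb haM hba
    rw [abs_of_nonneg (sub_nonneg.2 hba),
      abs_of_nonneg (sub_nonneg.2 (Real.log_le_log hb hba))]
    have h1 : 1 - (a / b)⁻¹ ≤ Real.log (a / b) := Real.one_sub_inv_le_log_of_pos (by positivity)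
    rw [Real.log_div ha.ne' hb.ne', inv_div] at h1
    have h2 : 0 ≤ Real.log a - Real.log b := sub_nonneg.2 (Real.log_le_log hb hba)
    calc a - b = a * (1 - b / a) := by field_simp
      _ ≤ a * (Real.log a - Real.log b) := mul_le_mul_of_nonneg_left h1 ha.le
      _ ≤ M * (Real.log a - Real.log b) := mul_le_mul_of_nonneg_right haM h2
  rcases le_total b a with h | h
  · exact main a b ha hb haM h
  · rw [abs_sub_comm, abs_sub_comm (Real.log a)]
    exact main b a hb ha hbM h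

theorem log_sub_le {c a b : ℝ} (hc : 0 < c) (ha : c ≤ a) (hb : c ≤ b) :
    |Real.log a - Real.log b| ≤ |a - b| / c := by
  have main : ∀ a b : ℝ, c ≤ a → c ≤ b → b ≤ a →
      |Real.log a - Real.log b| ≤ |a - b| / c := by
    intro a b ha hb hba
    have ha0 : 0 < a := hc.trans_le ha
    have hb0 : 0 < b := hc.trans_le hb
    rw [abs_of_nonneg (sub_nonneg.2 hba),
      abs_of_nonneg (sub_nonneg.2 (Real.log_le_log hb0 hba))]
    have h1 : Real.log (a / b) ≤ a / b - 1 := Real.log_le_sub_one_of_pos (by positivity)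
    rw [Real.log_div ha0.ne' hb0.ne'] at h1
    calc Real.log a - Real.log b ≤ a / b - 1 := h1
      _ = (a - b) / b := by field_simp
      _ ≤ (a - b) / c := div_le_div_of_nonneg_left (sub_nonneg.2 hba) hc hb
  rcases le_total b a with h | h
  · exact main a b ha hb h
  · rw [abs_sub_comm, abs_sub_comm a]
    exact main b a hb ha h

/-- two consecutive levels -/
structure Two (K : ℝ) (f₀ f₁ : ℝ → ℝ) (l₀ h₀ l₁ h₁ : ℝ) : Prop where
  L0 : Lev K f₀ l₀ h₀
  L1 : Lev K f₁ l₁ h₁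
  nl : l₀ ≤ l₁
  nh : h₁ ≤ h₀
  rat : h₁ - l₁ ≤ (1 - 1 / K) * (h₀ - l₀)

namespace Two

variable {K : ℝ} {f₀ f₁ : ℝ → ℝ} {l₀ h₀ l₁ h₁ : ℝ}

theorem sub (H : Two K f₀ f₁ l₀ h₀ l₁ h₁) {t : ℝ} (ht : t ∈ Icc l₁ h₁) : t ∈ Icc l₀ h₀ :=
  ⟨H.nl.trans ht.1, ht.2.trans H.nh⟩

theorem sub' (H : Two K f₀ f₁ l₀ h₀ l₁ h₁) {t : ℝ} (ht : t ∈ Ioo l₁ h₁) : t ∈ Ioo l₀ h₀ :=
  ⟨H.nl.trans_lt ht.1, ht.2.trans_le H.nh⟩

theorem len (H : Two K f₀ f₁ l₀ h₀ l₁ h₁) : h₁ - l₁ ≤ h₀ - l₀ := by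
  linarith [H.nl, H.nh]

theorem lip (hK : 0 ≤ K) (H : Two K f₀ f₁ l₀ h₀ l₁ h₁) {s t : ℝ} (hs : s ∈ Icc l₁ h₁)
    (ht : t ∈ Icc l₁ h₁) :
    |f₀ s - f₀ t| ≤ Real.exp (8 * K) * |f₁ s - f₁ t| := by
  have h1 := (H.L0.lips hK (H.sub hs) (H.sub ht)).1
  have h2 := (H.L1.lips hK hs ht).2
  have hL0 : 0 < h₀ - l₀ := sub_pos.2 H.L0.lt
  have hL1 : 0 < h₁ - l₁ := sub_pos.2 H.L1.lt
  calc |f₀ s - f₀ t| ≤ Real.exp (4 * K) * (4 / (h₀ - l₀)) * |s - t| := h1
    _ ≤ Real.exp (4 * K) * (4 / (h₀ - l₀)) *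
        (Real.exp (4 * K) * ((h₁ - l₁) / 4) * |f₁ s - f₁ t|) := by gcongr
    _ = (Real.exp (4 * K) * Real.exp (4 * K)) * ((h₁ - l₁) / (h₀ - l₀)) * |f₁ s - f₁ t| := by
        field_simp
    _ ≤ (Real.exp (4 * K) * Real.exp (4 * K)) * 1 * |f₁ s - f₁ t| := by
        gcongr
        rw [div_le_one hL0]
        exact H.len
    _ = Real.exp (8 * K) * |f₁ s - f₁ t| := by
        rw [mul_one, ← Real.exp_add]
        congr 2
        ring

theorem slope_le (hK : 0 ≤ K) (H : Two K f₀ f₁ l₀ h₀ l₁ h₁) {t : ℝ} (ht : t ∈ Icc l₁ h₁) :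
    deriv f₀ t / deriv f₁ t ≤ Real.exp (8 * K) := by
  have h1 := (H.L0.dbound hK (H.sub ht)).2
  have h2 := (H.L1.dbound hK ht).1
  have hL0 : 0 < h₀ - l₀ := sub_pos.2 H.L0.lt
  have hL1 : 0 < h₁ - l₁ := sub_pos.2 H.L1.lt
  rw [div_le_iff₀ (H.L1.pos t ht)]
  have h3 : Real.exp (8 * K) = Real.exp (4 * K) * Real.exp (4 * K) := by
    rw [← Real.exp_add]
    congr 1
    ring
  calc deriv f₀ t ≤ Real.exp (4 * K) * (4 / (h₀ - l₀)) := h1
    _ ≤ Real.exp (4 * K) * (4 / (h₁ - l₁)) :=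
        mul_le_mul_of_nonneg_left (div_le_div_of_nonneg_left (by norm_num) hL1 H.len)
          (Real.exp_pos _).le
    _ = Real.exp (8 * K) * (Real.exp (-(4 * K)) * (4 / (h₁ - l₁))) := by
        rw [h3, Real.exp_neg]
        field_simp
    _ ≤ Real.exp (8 * K) * deriv f₁ t := by gcongr

theorem slog (hK : 0 ≤ K) (H : Two K f₀ f₁ l₀ h₀ l₁ h₁) {s t : ℝ} (hs : s ∈ Icc l₁ h₁)
    (ht : t ∈ Icc l₁ h₁) :
    |Real.log (deriv f₀ s / deriv f₁ s) - Real.log (deriv f₀ t / deriv f₁ t)| ≤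
      K * (1 + Real.exp (8 * K)) * |f₁ s - f₁ t| := by
  rw [Real.log_div (H.L0.pos s (H.sub hs)).ne' (H.L1.pos s hs).ne',
    Real.log_div (H.L0.pos t (H.sub ht)).ne' (H.L1.pos t ht).ne']
  have h1 := H.L0.dlog (H.sub hs) (H.sub ht)
  have h2 := H.L1.dlog hs ht
  have h3 := H.lip hK hs ht
  have h4 : K * |f₀ s - f₀ t| ≤ K * (Real.exp (8 * K) * |f₁ s - f₁ t|) :=
    mul_le_mul_of_nonneg_left h3 hK
  calc |Real.log (deriv f₀ s) - Real.log (deriv f₁ s) -
        (Real.log (deriv f₀ t) - Real.log (deriv f₁ t))|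
      = |(Real.log (deriv f₀ s) - Real.log (deriv f₀ t)) -
        (Real.log (deriv f₁ s) - Real.log (deriv f₁ t))| := by congr 1; ring
    _ ≤ |Real.log (deriv f₀ s) - Real.log (deriv f₀ t)| +
        |Real.log (deriv f₁ s) - Real.log (deriv f₁ t)| := abs_sub _ _
    _ ≤ K * (1 + Real.exp (8 * K)) * |f₁ s - f₁ t| := by nlinarith

end Two

/-- comparison of two pairs of consecutive levels -/
theorem pair_lemma {K : ℝ} (hK : 1 ≤ K) {f₀ f₁ F₀ F₁ : ℝ → ℝ} {l₀ h₀ l₁ h₁ a₀ b₀ a₁ b₁ : ℝ}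
    (H : Two K f₀ f₁ l₀ h₀ l₁ h₁) (G : Two K F₀ F₁ a₀ b₀ a₁ b₁) {d m : ℝ} (hd : 1 ≤ d)
    (hm : 1 ≤ m)
    (hs : ∀ t ∈ Icc l₁ h₁, deriv f₁ t ≤ K * m ^ 3 * deriv f₀ t)
    (hs' : ∀ t ∈ Icc a₁ b₁, deriv F₁ t ≤ K * m ^ 3 * deriv F₀ t)
    (hc : ∀ t ∈ Ioo l₁ h₁, ∀ t' ∈ Ioo a₁ b₁, f₁ t = F₁ t' →
      |f₀ t - F₀ t'| * (d * Real.sqrt (4 - f₁ t ^ 2)) ≤ K)
    {t t' : ℝ} (ht : t ∈ Ioo l₁ h₁) (ht' : t' ∈ Ioo a₁ b₁) (htt : f₁ t = F₁ t') :
    |f₀ t - F₀ t'| ≤ (K + 2 * Real.exp (8 * K)) * d ^ (-(2 / 3) : ℝ) ∧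
    |Real.log (deriv f₀ t / deriv f₁ t) - Real.log (deriv F₀ t' / deriv F₁ t')| ≤
      K * (2 * (K + 2 * Real.exp (8 * K)) +
        2 * (Real.exp (8 * K) * (K * (1 + Real.exp (8 * K))))) *
        (m ^ 3 * d ^ (-(1 / 3) : ℝ)) := by
  have hK0 : 0 ≤ K := by linarith
  have hKp : 0 < K := by linarith
  have hd0 : 0 < d := by linarith
  have hm0 : 0 < m := by linarith
  set E := Real.exp (8 * K) with hE
  have hE0 : 0 < E := Real.exp_pos _
  obtain ⟨g, hg, hgo, hg'⟩ := H.L1.exists_inv hK0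
  obtain ⟨g', hgg, hggo, hgg'⟩ := G.L1.exists_inv hK0
  -- the difference of the two transition maps
  set φ : ℝ → ℝ := fun v => f₀ (g v) - F₀ (g' v) with hφ
  set P : ℝ → ℝ := fun v => deriv f₀ (g v) / deriv f₁ (g v) with hP
  set P' : ℝ → ℝ := fun v => deriv F₀ (g' v) / deriv F₁ (g' v) with hP'
  have hI : ∀ {v : ℝ}, v ∈ Ioo (-2 : ℝ) 2 → v ∈ Icc (-2 : ℝ) 2 := fun h => Ioo_subset_Icc_self h
  have hφd : ∀ v ∈ Ioo (-2 : ℝ) 2, HasDerivAt φ (P v - P' v) v := by
    intro v hv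
    have e1 : HasDerivAt (fun v => f₀ (g v)) (deriv f₀ (g v) * (deriv f₁ (g v))⁻¹) v :=
      (H.L0.diff _).hasDerivAt.comp v (hg' v hv)
    have e2 : HasDerivAt (fun v => F₀ (g' v)) (deriv F₀ (g' v) * (deriv F₁ (g' v))⁻¹) v :=
      (G.L0.diff _).hasDerivAt.comp v (hgg' v hv)
    exact e1.sub e2
  set δ : ℝ := d ^ (-(2 / 3) : ℝ) with hδ
  set σ : ℝ := d ^ (-(1 / 3) : ℝ) with hσ
  have hσ0 : 0 < σ := Real.rpow_pos_of_pos hd0 _
  have hδ0 : 0 < δ := Real.rpow_pos_of_pos hd0 _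
  have hσδ : σ ^ 2 = δ := by
    rw [hσ, hδ, ← Real.rpow_natCast, ← Real.rpow_mul hd0.le]
    norm_num
  have hσ1 : σ ≤ 1 := Real.rpow_le_one_of_one_le_of_nonpos hd (by norm_num)
  have hδ1 : δ ≤ 1 := Real.rpow_le_one_of_one_le_of_nonpos hd (by norm_num)
  have hdσ : d * σ ^ 3 = 1 := by
    rw [hσ, ← Real.rpow_natCast, ← Real.rpow_mul hd0.le]
    norm_num
    rw [Real.rpow_neg_one]
    exact mul_inv_cancel₀ hd0.ne'
  -- bound in the middle
  have hmid : ∀ v : ℝ, |v| ≤ 2 - δ → |φ v| ≤ K * δ := by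
    intro v hv
    have hv1 := abs_le.1 hv
    have hvo : v ∈ Ioo (-2 : ℝ) 2 := ⟨by linarith, by linarith⟩
    have h1 := hc (g v) (hgo v hvo) (g' v) (hggo v hvo)
      (by rw [(hg v (hI hvo)).2, (hgg v (hI hvo)).2])
    rw [(hg v (hI hvo)).2] at h1
    have h2 : σ ≤ Real.sqrt (4 - v ^ 2) := by
      apply Real.le_sqrt_of_sq_le
      rw [hσδ]
      have : v ^ 2 ≤ (2 - δ) ^ 2 := by
        rw [← sq_abs v]
        exact pow_le_pow_left₀ (abs_nonneg v) hv 2
      nlinarith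
    have h3 : |φ v| * (d * σ) ≤ K := by
      refine le_trans ?_ h1
      exact mul_le_mul_of_nonneg_left (mul_le_mul_of_nonneg_left h2 hd0.le) (abs_nonneg _)
    have h4 : |φ v| = |φ v| * (d * σ) * δ := by
      calc |φ v| = |φ v| * (d * σ ^ 3) := by rw [hdσ, mul_one]
        _ = |φ v| * (d * σ) * σ ^ 2 := by ring
        _ = _ := by rw [hσδ]
    rw [h4]
    exact mul_le_mul_of_nonneg_right h3 hδ0.le
  have hφlip : ∀ v w : ℝ, v ∈ Ioo (-2 : ℝ) 2 → w ∈ Ioo (-2 : ℝ) 2 →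
      |φ v - φ w| ≤ 2 * E * |v - w| := by
    intro v w hv hw
    have h1 := H.lip hK0 (hg v (hI hv)).1 (hg w (hI hw)).1
    have h2 := G.lip hK0 (hgg v (hI hv)).1 (hgg w (hI hw)).1
    rw [(hg v (hI hv)).2, (hg w (hI hw)).2] at h1
    rw [(hgg v (hI hv)).2, (hgg w (hI hw)).2] at h2
    calc |φ v - φ w| = |(f₀ (g v) - f₀ (g w)) - (F₀ (g' v) - F₀ (g' w))| := by
          simp only [hφ]; congr 1; ring
      _ ≤ |f₀ (g v) - f₀ (g w)| + |F₀ (g' v) - F₀ (g' w)| := abs_sub _ _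
      _ ≤ 2 * E * |v - w| := by linarith
  have hall : ∀ v ∈ Ioo (-2 : ℝ) 2, |φ v| ≤ (K + 2 * E) * δ := by
    intro v hv
    by_cases h1 : |v| ≤ 2 - δ
    · have := hmid v h1
      nlinarith
    · rw [not_le] at h1
      -- the nearest point of the middle part
      obtain ⟨w, hw, hvw⟩ : ∃ w : ℝ, |w| ≤ 2 - δ ∧ |v - w| ≤ δ := by
        rcases le_total 0 v with h0 | h0
        · rw [abs_of_nonneg h0] at h1
          refine ⟨2 - δ, ?_, ?_⟩
          · rw [abs_of_nonneg (by linarith)]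
          · rw [abs_of_nonneg (by linarith)]
            linarith [hv.2]
        · rw [abs_of_nonpos h0] at h1
          refine ⟨-(2 - δ), ?_, ?_⟩
          · rw [abs_neg, abs_of_nonneg (by linarith)]
          · rw [abs_of_nonpos (by linarith)]
            linarith [hv.1]
      have hw' := abs_le.1 hw
      have h2 := hmid w hw
      have h3 := hφlip v w hv ⟨by linarith, by linarith⟩
      have h4 : |φ v| ≤ |φ w| + |φ v - φ w| := by
        have := abs_add_le (φ w) (φ v - φ w)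
        rwa [add_sub_cancel] at this
      have h5 : 2 * E * |v - w| ≤ 2 * E * δ := mul_le_mul_of_nonneg_left hvw (by positivity)
      linarith
  -- the slopes
  have hPpos : ∀ v ∈ Ioo (-2 : ℝ) 2, 0 < P v := fun v hv =>
    div_pos (H.L0.pos _ (H.sub (hg v (hI hv)).1)) (H.L1.pos _ (hg v (hI hv)).1)
  have hPpos' : ∀ v ∈ Ioo (-2 : ℝ) 2, 0 < P' v := fun v hv =>
    div_pos (G.L0.pos _ (G.sub (hgg v (hI hv)).1)) (G.L1.pos _ (hgg v (hI hv)).1)
  have hPlip : ∀ v ∈ Ioo (-2 : ℝ) 2, ∀ w ∈ Ioo (-2 : ℝ) 2,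
      |P v - P w| ≤ E * (K * (1 + E)) * |v - w| := by
    intro v hv w hw
    have h1 := H.slog hK0 (hg v (hI hv)).1 (hg w (hI hw)).1
    rw [(hg v (hI hv)).2, (hg w (hI hw)).2] at h1
    have h2 := abs_sub_le_log (hPpos v hv) (hPpos w hw) (H.slope_le hK0 (hg v (hI hv)).1)
      (H.slope_le hK0 (hg w (hI hw)).1)
    refine h2.trans ?_
    rw [mul_assoc]
    exact mul_le_mul_of_nonneg_left h1 hE0.le
  have hPlip' : ∀ v ∈ Ioo (-2 : ℝ) 2, ∀ w ∈ Ioo (-2 : ℝ) 2,
      |P' v - P' w| ≤ E * (K * (1 + E)) * |v - w| := by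
    intro v hv w hw
    have h1 := G.slog hK0 (hgg v (hI hv)).1 (hgg w (hI hw)).1
    rw [(hgg v (hI hv)).2, (hgg w (hI hw)).2] at h1
    have h2 := abs_sub_le_log (hPpos' v hv) (hPpos' w hw) (G.slope_le hK0 (hgg v (hI hv)).1)
      (G.slope_le hK0 (hgg w (hI hw)).1)
    refine h2.trans ?_
    rw [mul_assoc]
    exact mul_le_mul_of_nonneg_left h1 hE0.le
  have hlandau : ∀ v ∈ Ioo (-2 : ℝ) 2,
      |P v - P' v| ≤ (2 * (K + 2 * E) + 2 * (E * (K * (1 + E)))) * σ := by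
    intro v hv
    -- an interval of length `σ` with end point `v`
    obtain ⟨ξ, hξ, hvξ, hξ'⟩ : ∃ ξ ∈ Ioo (-2 : ℝ) 2, |v - ξ| ≤ σ ∧
        |P ξ - P' ξ| * σ ≤ 2 * ((K + 2 * E) * δ) := by
      have hgen : ∀ p q : ℝ, p < q → -2 < p → q < 2 → q - p = σ → ∃ ξ ∈ Ioo p q,
          |P ξ - P' ξ| * σ ≤ 2 * ((K + 2 * E) * δ) := by
        intro p q hpq hp hq hσpq
        obtain ⟨ξ, hξ, hξ'⟩ := exists_hasDerivAt_eq_slope φ (fun v => P v - P' v) hpq
          (fun z hz => (hφd z ⟨by linarith [hz.1], by linarith [hz.2]⟩).continuousAt.continuousWithinAt)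
          (fun z hz => hφd z ⟨by linarith [hz.1], by linarith [hz.2]⟩)
        refine ⟨ξ, hξ, ?_⟩
        rw [hξ', abs_div, hσpq, abs_of_pos hσ0, div_mul_cancel₀ _ hσ0.ne']
        have h1 := hall p ⟨hp, by linarith⟩
        have h2 := hall q ⟨by linarith, hq⟩
        calc |φ q - φ p| ≤ |φ q| + |φ p| := abs_sub _ _
          _ ≤ 2 * ((K + 2 * E) * δ) := by linarith
      rcases le_total v 0 with h0 | h0
      · obtain ⟨ξ, hξ, h1⟩ := hgen v (v + σ) (by linarith) hv.1 (by linarith) (by ring)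
        refine ⟨ξ, ⟨by linarith [hξ.1, hv.1], by linarith [hξ.2]⟩, ?_, h1⟩
        rw [abs_le]; constructor <;> linarith [hξ.1, hξ.2]
      · obtain ⟨ξ, hξ, h1⟩ := hgen (v - σ) v (by linarith) (by linarith) hv.2 (by ring)
        refine ⟨ξ, ⟨by linarith [hξ.1], by linarith [hξ.2, hv.2]⟩, ?_, h1⟩
        rw [abs_le]; constructor <;> linarith [hξ.1, hξ.2]
    have h1 : |P ξ - P' ξ| ≤ 2 * (K + 2 * E) * σ := by
      rw [← hσδ] at hξ'
      have : |P ξ - P' ξ| * σ ≤ (2 * (K + 2 * E) * σ) * σ := by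
        refine hξ'.trans (le_of_eq ?_)
        ring
      exact le_of_mul_le_mul_right this hσ0
    have h2 := hPlip v hv ξ hξ
    have h3 := hPlip' v hv ξ hξ
    have hc0 : 0 ≤ E * (K * (1 + E)) := by positivity
    have h4 : E * (K * (1 + E)) * |v - ξ| ≤ E * (K * (1 + E)) * σ :=
      mul_le_mul_of_nonneg_left hvξ hc0
    have h5 : |P v - P' v| ≤ |P ξ - P' ξ| + |P v - P ξ| + |P' v - P' ξ| := by
      have : P v - P' v = (P ξ - P' ξ) + ((P v - P ξ) - (P' v - P' ξ)) := by ring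
      rw [this]
      refine (abs_add_le _ _).trans ?_
      have := abs_sub (P v - P ξ) (P' v - P' ξ)
      linarith
    linarith
  -- conclusion
  have hv : f₁ t ∈ Ioo (-2 : ℝ) 2 := H.L1.mem' ht
  have hgt : g (f₁ t) = t :=
    H.L1.smono.injOn (hg _ (hI hv)).1 (Ioo_subset_Icc_self ht) (hg _ (hI hv)).2
  have hgt' : g' (f₁ t) = t' := by
    refine G.L1.smono.injOn (hgg _ (hI hv)).1 (Ioo_subset_Icc_self ht') ?_
    rw [(hgg _ (hI hv)).2, htt]
  constructor
  · have := hall _ hv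
    simp only [hφ, hgt, hgt'] at this
    exact this
  · have h1 := hlandau _ hv
    simp only [hP, hP', hgt, hgt'] at h1
    have hc0 : 0 < (K * m ^ 3)⁻¹ := by positivity
    have h2 : (K * m ^ 3)⁻¹ ≤ deriv f₀ t / deriv f₁ t := by
      have h3 := hs t (Ioo_subset_Icc_self ht)
      have h4 := H.L1.pos t (Ioo_subset_Icc_self ht)
      rw [inv_eq_one_div, div_le_div_iff₀ (by positivity) h4, one_mul, mul_comm (deriv f₀ t)]
      exact h3
    have h3 : (K * m ^ 3)⁻¹ ≤ deriv F₀ t' / deriv F₁ t' := by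
      have h3 := hs' t' (Ioo_subset_Icc_self ht')
      have h4 := G.L1.pos t' (Ioo_subset_Icc_self ht')
      rw [inv_eq_one_div, div_le_div_iff₀ (by positivity) h4, one_mul, mul_comm (deriv F₀ t')]
      exact h3
    refine (log_sub_le hc0 h2 h3).trans ?_
    rw [div_inv_eq_mul]
    calc |deriv f₀ t / deriv f₁ t - deriv F₀ t' / deriv F₁ t'| * (K * m ^ 3)
        ≤ ((2 * (K + 2 * E) + 2 * (E * (K * (1 + E)))) * σ) * (K * m ^ 3) :=
          mul_le_mul_of_nonneg_right h1 (by positivity)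
      _ = _ := by ring

theorem Two.of_chain {K : ℝ} {n : ℕ} {x : ℕ → ℝ → ℝ} {l h : ℕ → ℝ} (H : IsChain K n x l h)
    {j : ℕ} (hj : j < n) : Two K (x j) (x (j + 1)) (l j) (h j) (l (j + 1)) (h (j + 1)) :=
  ⟨Lev.of_chain H hj.le, Lev.of_chain H hj, H.nl j hj, H.nh j hj, H.rat j hj⟩

theorem chain_mem {K : ℝ} {n : ℕ} {x : ℕ → ℝ → ℝ} {l h : ℕ → ℝ} (H : IsChain K n x l h)
    {t : ℝ} (ht : t ∈ Ioo (l n) (h n)) : ∀ j ≤ n, t ∈ Ioo (l j) (h j) := by
  have key : ∀ k, k ≤ n → t ∈ Ioo (l (n - k)) (h (n - k)) := by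
    intro k
    induction k with
    | zero => intro _; simpa using ht
    | succ k ih =>
      intro hk
      have h1 := ih (by omega)
      have h2 : n - k = n - (k + 1) + 1 := by omega
      rw [h2] at h1
      exact (Two.of_chain H (by omega : n - (k + 1) < n)).sub' h1
  intro j hj
  have := key (n - j) (by omega)
  rwa [Nat.sub_sub_self hj] at this

theorem TEL : T_TEL := by
  intro K hK
  have hK0 : 0 ≤ K := by linarith
  have hKp : 0 < K := by linarith
  set E4 := Real.exp (4 * K) with hE4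
  set E := Real.exp (8 * K) with hE
  have hE0 : 0 < E := Real.exp_pos _
  have hE40 : 0 < E4 := Real.exp_pos _
  set C1 : ℝ := K + 2 * E with hC1
  set C3 : ℝ := K * (2 * (K + 2 * E) + 2 * (E * (K * (1 + E)))) with hC3
  have hC10 : 0 ≤ C1 := by positivity
  have hC30 : 0 ≤ C3 := by positivity
  set C4 : ℝ := K * (1 + E) * (4 * E4) * (K * (E4 / 4 * C1)) with hC4
  have hC40 : 0 ≤ C4 := by positivity
  refine ⟨16 * K + C3 + C4, ?_⟩
  intro n x x' l h l' h' d m H H' hd hm hs hs' hc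
  -- the base point
  have hLn := Lev.of_chain H le_rfl
  have hLn' := Lev.of_chain H' le_rfl
  obtain ⟨g, hg, hgo, -⟩ := hLn.exists_inv hK0
  have h0I : (0 : ℝ) ∈ Ioo (-2 : ℝ) 2 := by constructor <;> norm_num
  set t := g 0 with htdef
  have htm : ∀ j ≤ n, t ∈ Ioo (l j) (h j) := chain_mem H (hgo 0 h0I)
  -- the points `s j` of the second chain with the same trace
  have hinv : ∀ j, ∃ s, j ≤ n → s ∈ Ioo (l' j) (h' j) ∧ x' j s = x j t := by
    intro j
    by_cases hj : j ≤ n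
    · obtain ⟨g', hg', hgo', -⟩ := (Lev.of_chain H' hj).exists_inv hK0
      have h1 := (Lev.of_chain H hj).mem' (htm j hj)
      exact ⟨g' (x j t), fun _ => ⟨hgo' _ h1, (hg' _ (Ioo_subset_Icc_self h1)).2⟩⟩
    · exact ⟨0, fun h => absurd h hj⟩
  choose s hsp using hinv
  set t' := s n with ht'def
  have htm' : ∀ j ≤ n, t' ∈ Ioo (l' j) (h' j) := chain_mem H' (hsp n le_rfl).1
  have hL : ∀ j ≤ n, 0 < h j - l j := fun j hj => sub_pos.2 (H.lt j hj)
  have hL' : ∀ j ≤ n, 0 < h' j - l' j := fun j hj => sub_pos.2 (H'.lt j hj)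
  set u : ℕ → ℝ := fun j => |s j - t'| / (h' j - l' j) with hu
  have hu0 : ∀ j ≤ n, 0 ≤ u j := fun j hj => div_nonneg (abs_nonneg _) (hL' j hj).le
  have hun : u n = 0 := by simp [hu, ht'def]
  set w : ℕ → ℝ := fun j => m j ^ 3 * d j ^ (-(1 / 3) : ℝ) with hw
  have hw0 : ∀ j, 0 ≤ w j := fun j => by
    have := hm j
    have := hd j
    positivity
  have hpair : ∀ j < n, |x j t - x' j (s (j + 1))| ≤ C1 * d j ^ (-(2 / 3) : ℝ) ∧
      |Real.log (deriv (x j) t / deriv (x (j + 1)) t) -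
        Real.log (deriv (x' j) (s (j + 1)) / deriv (x' (j + 1)) (s (j + 1)))| ≤ C3 * w j := by
    intro j hj
    exact pair_lemma hK (Two.of_chain H hj) (Two.of_chain H' hj) (hd j) (hm j) (hs j hj)
      (hs' j hj) (hc j hj) (htm (j + 1) hj) (hsp (j + 1) hj).1 (hsp (j + 1) hj).2.symm
  have hdw : ∀ j, d j ^ (-(2 / 3) : ℝ) ≤ w j := by
    intro j
    have h1 : d j ^ (-(2 / 3) : ℝ) ≤ d j ^ (-(1 / 3) : ℝ) :=
      Real.rpow_le_rpow_of_exponent_le (hd j) (by norm_num)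
    have h2 : (1 : ℝ) ≤ m j ^ 3 := one_le_pow₀ (hm j)
    have h3 : 0 ≤ d j ^ (-(1 / 3) : ℝ) := Real.rpow_nonneg (by linarith [hd j]) _
    calc d j ^ (-(2 / 3) : ℝ) ≤ 1 * d j ^ (-(1 / 3) : ℝ) := by rw [one_mul]; exact h1
      _ ≤ w j := mul_le_mul_of_nonneg_right h2 h3
  -- the recursion for `u`
  have hrec : ∀ j < n, u j ≤ E4 / 4 * C1 * w j + (1 - 1 / K) * u (j + 1) := by
    intro j hj
    have hT := Two.of_chain H' hj
    have h1 := (hT.L0.lips hK0 (Ioo_subset_Icc_self (hsp j hj.le).1)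
      (hT.sub (Ioo_subset_Icc_self (hsp (j + 1) hj).1))).2
    rw [(hsp j hj.le).2] at h1
    have h2 := (hpair j hj).1
    have hLj := hL' j hj.le
    have hLj1 := hL' (j + 1) hj
    have h3 : |s j - t'| ≤ |s j - s (j + 1)| + |s (j + 1) - t'| := abs_sub_le _ _ _
    have h4 : |s j - s (j + 1)| ≤ E4 * ((h' j - l' j) / 4) * (C1 * w j) :=
      h1.trans (mul_le_mul_of_nonneg_left (h2.trans (mul_le_mul_of_nonneg_left (hdw j) hC10))
        (by positivity))
    have h5 : |s (j + 1) - t'| = u (j + 1) * (h' (j + 1) - l' (j + 1)) := by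
      simp only [hu]
      field_simp
    have h6 : u (j + 1) * (h' (j + 1) - l' (j + 1)) ≤
        u (j + 1) * ((1 - 1 / K) * (h' j - l' j)) :=
      mul_le_mul_of_nonneg_left (H'.rat j hj) (hu0 (j + 1) hj)
    have h7 : u j * (h' j - l' j) ≤
        (E4 / 4 * C1 * w j + (1 - 1 / K) * u (j + 1)) * (h' j - l' j) := by
      have : u j * (h' j - l' j) = |s j - t'| := by
        simp only [hu]
        field_simp
      rw [this]
      calc |s j - t'| ≤ E4 * ((h' j - l' j) / 4) * (C1 * w j) +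
            u (j + 1) * ((1 - 1 / K) * (h' j - l' j)) := by linarith
        _ = _ := by ring
    exact le_of_mul_le_mul_right h7 hLj
  have hsumu : ∑ j ∈ Finset.range n, u (j + 1) ≤
      K * (E4 / 4 * C1) * ∑ j ∈ Finset.range n, w j := by
    have h1 : ∑ j ∈ Finset.range n, u j ≤
        ∑ j ∈ Finset.range n, (E4 / 4 * C1 * w j + (1 - 1 / K) * u (j + 1)) :=
      Finset.sum_le_sum fun j hj => hrec j (Finset.mem_range.1 hj)
    rw [Finset.sum_add_distrib, ← Finset.mul_sum, ← Finset.mul_sum] at h1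
    have h2 : ∑ j ∈ Finset.range n, u (j + 1) + u 0 = ∑ j ∈ Finset.range n, u j + u n := by
      rw [← Finset.sum_range_succ, ← Finset.sum_range_succ']
    rw [hun, add_zero] at h2
    have h3 := hu0 0 (Nat.zero_le n)
    set U := ∑ j ∈ Finset.range n, u (j + 1) with hU
    set W := ∑ j ∈ Finset.range n, w j with hW
    have h4 : (1 / K) * U ≤ E4 / 4 * C1 * W := by
      have : U ≤ E4 / 4 * C1 * W + (1 - 1 / K) * U := by linarith
      linarith
    calc U = K * ((1 / K) * U) := by field_simp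
      _ ≤ K * (E4 / 4 * C1 * W) := mul_le_mul_of_nonneg_left h4 hK0
      _ = _ := by ring
  -- comparison of the logarithms
  have hterm : ∀ j < n, |Real.log (deriv (x j) t / deriv (x (j + 1)) t) -
      Real.log (deriv (x' j) t' / deriv (x' (j + 1)) t')| ≤
      C3 * w j + K * (1 + E) * (4 * E4) * u (j + 1) := by
    intro j hj
    have hT := Two.of_chain H' hj
    have h1 := (hpair j hj).2
    have hs1 := Ioo_subset_Icc_self (hsp (j + 1) hj).1
    have ht1 := Ioo_subset_Icc_self (htm' (j + 1) hj)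
    have h2 := hT.slog hK0 hs1 ht1
    have h3 := (hT.L1.lips hK0 hs1 ht1).1
    have hLj1 := hL' (j + 1) hj
    have h4 : E4 * (4 / (h' (j + 1) - l' (j + 1))) * |s (j + 1) - t'| = 4 * E4 * u (j + 1) := by
      simp only [hu]
      field_simp
    rw [h4] at h3
    have h5 : K * (1 + E) * |x' (j + 1) (s (j + 1)) - x' (j + 1) t'| ≤
        K * (1 + E) * (4 * E4 * u (j + 1)) := mul_le_mul_of_nonneg_left h3 (by positivity)
    calc _ ≤ |Real.log (deriv (x j) t / deriv (x (j + 1)) t) -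
          Real.log (deriv (x' j) (s (j + 1)) / deriv (x' (j + 1)) (s (j + 1)))| +
          |Real.log (deriv (x' j) (s (j + 1)) / deriv (x' (j + 1)) (s (j + 1))) -
          Real.log (deriv (x' j) t' / deriv (x' (j + 1)) t')| := abs_sub_le _ _ _
      _ ≤ C3 * w j + K * (1 + E) * (4 * E4) * u (j + 1) := by
          have h6 : K * (1 + E) * (4 * E4 * u (j + 1)) = K * (1 + E) * (4 * E4) * u (j + 1) := by
            ring
          linarith
  have htel : ∀ (y : ℕ → ℝ → ℝ) (r : ℝ), (∀ j ≤ n, 0 < deriv (y j) r) →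
      ∑ j ∈ Finset.range n, Real.log (deriv (y j) r / deriv (y (j + 1)) r) =
        Real.log (deriv (y 0) r) - Real.log (deriv (y n) r) := by
    intro y r hy
    rw [← Finset.sum_range_sub' (fun j => Real.log (deriv (y j) r)) n]
    refine Finset.sum_congr rfl fun j hj => ?_
    have hj' := Finset.mem_range.1 hj
    rw [Real.log_div (hy j hj'.le).ne' (hy (j + 1) hj').ne']
  have hDx : ∀ j ≤ n, 0 < deriv (x j) t := fun j hj =>
    H.pos j hj t (Ioo_subset_Icc_self (htm j hj))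
  have hDx' : ∀ j ≤ n, 0 < deriv (x' j) t' := fun j hj =>
    H'.pos j hj t' (Ioo_subset_Icc_self (htm' j hj))
  have hlog : Real.log (deriv (x 0) t) - Real.log (deriv (x n) t) ≤
      Real.log (deriv (x' 0) t') - Real.log (deriv (x' n) t') +
        (C3 + C4) * ∑ j ∈ Finset.range n, w j := by
    rw [← htel x t hDx, ← htel x' t' hDx']
    have h1 : ∑ j ∈ Finset.range n, Real.log (deriv (x j) t / deriv (x (j + 1)) t) ≤
        ∑ j ∈ Finset.range n, (Real.log (deriv (x' j) t' / deriv (x' (j + 1)) t') +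
          (C3 * w j + K * (1 + E) * (4 * E4) * u (j + 1))) := by
      refine Finset.sum_le_sum fun j hj => ?_
      have := (abs_le.1 (hterm j (Finset.mem_range.1 hj))).2
      linarith
    rw [Finset.sum_add_distrib, Finset.sum_add_distrib, ← Finset.mul_sum, ← Finset.mul_sum] at h1
    have h2 : K * (1 + E) * (4 * E4) * ∑ j ∈ Finset.range n, u (j + 1) ≤
        K * (1 + E) * (4 * E4) * (K * (E4 / 4 * C1) * ∑ j ∈ Finset.range n, w j) :=
      mul_le_mul_of_nonneg_left hsumu (by positivity)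
    have h3 : K * (1 + E) * (4 * E4) * (K * (E4 / 4 * C1) * ∑ j ∈ Finset.range n, w j) =
        C4 * ∑ j ∈ Finset.range n, w j := by
      rw [hC4]
      ring
    linarith
  -- lengths and slopes
  have hn0 : (0 : ℕ) ≤ n := Nat.zero_le n
  have a0 := ((Lev.of_chain H hn0).dbound hK0 (Ioo_subset_Icc_self (htm 0 hn0))).1
  have an := (hLn.dbound hK0 (Ioo_subset_Icc_self (htm n le_rfl))).2
  have a0' := ((Lev.of_chain H' hn0).dbound hK0 (Ioo_subset_Icc_self (htm' 0 hn0))).2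
  have an' := (hLn'.dbound hK0 (Ioo_subset_Icc_self (htm' n le_rfl))).1
  have l0 := hL 0 hn0
  have ln := hL n le_rfl
  have l0' := hL' 0 hn0
  have ln' := hL' n le_rfl
  have hlin : ∀ (L D : ℝ), 0 < L → 0 < D → Real.log (4 / L) = Real.log 4 - Real.log L :=
    fun L D hL _ => Real.log_div (by norm_num) hL.ne'
  have b0 : Real.log 4 - Real.log (h 0 - l 0) - 4 * K ≤ Real.log (deriv (x 0) t) := by
    have := Real.log_le_log (by positivity) a0
    rw [Real.log_mul (Real.exp_pos _).ne' (by positivity), Real.log_exp,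
      Real.log_div (by norm_num) l0.ne'] at this
    linarith
  have bn : Real.log (deriv (x n) t) ≤ Real.log 4 - Real.log (h n - l n) + 4 * K := by
    have := Real.log_le_log (hDx n le_rfl) an
    rw [Real.log_mul (Real.exp_pos _).ne' (by positivity), Real.log_exp,
      Real.log_div (by norm_num) ln.ne'] at this
    linarith
  have b0' : Real.log (deriv (x' 0) t') ≤ Real.log 4 - Real.log (h' 0 - l' 0) + 4 * K := by
    have := Real.log_le_log (hDx' 0 hn0) a0'
    rw [Real.log_mul (Real.exp_pos _).ne' (by positivity), Real.log_exp,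
      Real.log_div (by norm_num) l0'.ne'] at this
    linarith
  have bn' : Real.log 4 - Real.log (h' n - l' n) - 4 * K ≤ Real.log (deriv (x' n) t') := by
    have := Real.log_le_log (by positivity) an'
    rw [Real.log_mul (Real.exp_pos _).ne' (by positivity), Real.log_exp,
      Real.log_div (by norm_num) ln'.ne'] at this
    linarith
  have hW0 : 0 ≤ ∑ j ∈ Finset.range n, w j := Finset.sum_nonneg fun j _ => hw0 j
  rw [← Real.log_le_log_iff (by positivity) (by positivity), Real.log_mul (Real.exp_pos _).ne'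
    (by positivity), Real.log_exp, Real.log_div ln.ne' l0.ne', Real.log_div ln'.ne' l0'.ne']
  have hfin : 16 * K + (C3 + C4) * ∑ j ∈ Finset.range n, w j ≤
      (16 * K + C3 + C4) * (1 + ∑ j ∈ Finset.range n, w j) := by
    nlinarith [mul_nonneg hK0 hW0]
  linarith

end H31.ST.H21
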